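import Pool.Agent.Q325.EncMem

/-!
# Recognising even-nearly conservative weights is coNP-complete

Definitions: `Pool/Agent/Q325/EncDefs.lean`; complexity classes: `Pool/Agent/NPC/Defs.lean` and
`Pool/Agent/NPC/Classes.lean`.

The reduction is from the Hamiltonian cycle problem. Every vertex `v` of a graph with `n` vertices
is split into `v⁰` and `v¹`; there are the arcs `v⁰ v¹` and `u¹ v⁰` (for adjacent `u`, `v`) of
weight `-1`. For one vertex `r` the arc `r⁰ r¹` is subdivided by a new vertex `z`, with
`c(r⁰ z) = 2 n - 1` and `c(z r¹) = -1`. The cycles that avoid `z` are even, and the cycle through `z`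
which passes through `k` vertices of the graph has `2 k + 1` arcs and weight `2 n - 1 - 2 k`, so
that it is negative only if `k = n`. The opposite arcs, of weight `2 n + 1`, make the digraph
symmetric and do not occur in negative cycles.
-/

set_option autoImplicit false

namespace Pool.Agent.Results.MP_d994ca_lc.EvenNearlyHard

open Pool.Agent.NPC Pool.Agent.Q325.ENC

/-- **Recognising even-nearly conservative weights is coNP-complete**, even on symmetric digraphs
with integer weights bounded by the number of the arcs. -/
theorem result : (InCoNPP ENC ∧ CoNPHardP ENC) ∧ (InCoNPP SENC ∧ CoNPHardP SENC) :=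
  ⟨⟨Pool.Agent.NPC.Q325ENC.mem_ENC, Pool.Agent.NPC.Q325ENC.hard_ENC⟩,
    Pool.Agent.NPC.Q325ENC.mem_SENC, Pool.Agent.NPC.Q325ENC.hard_SENC⟩

end Pool.Agent.Results.MP_d994ca_lc.EvenNearlyHard
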